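import Pool.Agent.Helper30.UNI.PHT
import Pool.Agent.Helper99.LK.KPOT
import Pool.Agent.Helper42.LK.KMTa

set_option autoImplicit false

/-!
# UNI row HBD (MP_9a3c31): height bound for all multiples, uniform in the number field
-/

open Filter Topology NumberField

namespace Pool.Agent.Helper30.UNI

open Pool.Agent.Helper42.LS Pool.Agent.Helper42.LK Pool.Agent.Helper92.LV

private lemma logmax_le (a R : ℝ) (hR : 0 < R) :
    Real.log (max a R) ≤ Real.log (max a 1) + Real.log (max R 1) := by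
  have p1 : 0 < max a 1 := lt_max_of_lt_right one_pos
  have p2 : 0 < max R 1 := lt_max_of_lt_right one_pos
  rw [← Real.log_mul p1.ne' p2.ne']
  apply Real.log_le_log (lt_max_of_lt_right hR)
  apply max_le
  · calc a ≤ max a 1 := le_max_left _ _
      _ ≤ _ := le_mul_of_one_le_right p1.le (le_max_right _ _)
  · calc R ≤ max R 1 := le_max_left _ _
      _ ≤ _ := le_mul_of_one_le_left p2.le (le_max_right _ _)

private lemma logloc (a Δ R : ℝ) (ha : 0 ≤ a) (hΔ : 0 < Δ) (hR : 0 < R)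
    (h : Real.log R = 1 / 6 * Real.log Δ) :
    Real.log (max (a ^ 6 / Δ) 1) = 6 * Real.log (max a R) - Real.log Δ := by
  have e1 : R ^ 6 = Δ := by
    have h1 : Real.log (R ^ 6) = Real.log Δ := by
      rw [Real.log_pow, h]; push_cast; ring
    rw [← Real.exp_log (pow_pos hR 6), h1, Real.exp_log hΔ]
  have hm : 0 < max a R := lt_max_of_lt_right hR
  have e2 : max (a ^ 6 / Δ) 1 = (max a R) ^ 6 / Δ := by
    rcases le_total a R with h2 | h2
    · rw [max_eq_right h2, e1, div_self hΔ.ne']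
      apply max_eq_right
      rw [div_le_one hΔ, ← e1]
      exact pow_le_pow_left₀ ha h2 6
    · rw [max_eq_left h2]
      apply max_eq_left
      rw [one_le_div hΔ, ← e1]
      exact pow_le_pow_left₀ hR.le h2 6
  rw [e2, Real.log_div (pow_pos hm 6).ne' hΔ.ne', Real.log_pow]
  push_cast; ring

/-- row HBD -/
theorem hbd (hC02 : ST_C02) (hKPOT : ST_KPOT) (hKGO : ST_KGO) (hKDF : ST_KDF) (hKFP : ST_KFP)
    (hSIX : ∀ (K : Type) [Field K] [NumberField K] (T : Finset (FinitePlace K)),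
      ∑ v ∈ T, -Real.log (v (6 : K)) ≤ Module.finrank ℚ K * Real.log 6)
    (D : ℕ) (H₀ : ℝ) : ∃ C : ℝ, 0 ≤ C ∧
    ∀ (K : Type) [Field K] [NumberField K], Module.finrank ℚ K ≤ D → ∀ A B : K, dsc A B ≠ 0 →
    HK A B ≤ H₀ → ∀ (x y : ℕ → K) (e : ℝ), GSeq (0 : K) A B x y → IsCanK x e → ∀ k : ℕ, 1 ≤ k →
      Height.logHeight₁ (x k ^ 6 / dsc A B) ≤ 6 * (k : ℝ) ^ 2 * e + C := by
  obtain ⟨C0, hC0, hC⟩ := hC02 (Real.exp H₀)
  have l6 : (0 : ℝ) ≤ Real.log 6 := Real.log_nonneg (by norm_num)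
  refine ⟨2 * (7 * max H₀ 0 + 100 * (D * Real.log 6) + D * C0), by positivity, ?_⟩
  intro K _ _ hn A B hD hH x y e hG he k hk
  classical
  obtain ⟨hfin, hdl, -, hle1, -⟩ := hKDF K A B hD
  have hn' : (Module.finrank ℚ K : ℝ) ≤ D := by exact_mod_cast hn
  -- finite places
  have hnr : ∀ v : FinitePlace K, ∃ V : DV K, ∀ z, V.nr z = v z := fun v => by
    obtain ⟨V, h1, _⟩ := hKFP K v
    exact ⟨V, h1⟩
  choose V hV using hnr
  have hP := fun v => pht K (V v) A B hD x y hG
  choose R hR hlR hstep using hP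
  simp only [hV] at hlR hstep
  have hvD : ∀ v : FinitePlace K, 0 < v (dsc A B) := fun v => by
    rw [← hV v]; exact (V v).nr_pos hD
  have hv0 : ∀ (v : FinitePlace K) (z : K), 0 ≤ v z := fun v z => by
    rw [← hV v]; exact (V v).nr_nonneg z
  -- infinite places
  have hLD : 0 ≤ LD A B := finsum_nonneg fun v => (hdl v).1
  have hj : ∀ w : InfinitePlace K, w (6912 * A ^ 3 / dsc A B) ≤ Real.exp H₀ := by
    intro w
    have h1 : (w.mult : ℝ) * max 0 (Real.log (w (6912 * A ^ 3 / dsc A B))) ≤ H₀ := by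
      have h2 : (w.mult : ℝ) * max 0 (Real.log (w (6912 * A ^ 3 / dsc A B))) ≤
          ∑ w : InfinitePlace K, (w.mult : ℝ) *
            max 0 (Real.log (w (6912 * A ^ 3 / dsc A B))) :=
        Finset.single_le_sum (f := fun w : InfinitePlace K => (w.mult : ℝ) *
            max 0 (Real.log (w (6912 * A ^ 3 / dsc A B))))
          (fun w _ => mul_nonneg (Nat.cast_nonneg _) (le_max_left _ _)) (Finset.mem_univ w)
      linarith
    have h3 : (1 : ℝ) ≤ w.mult := by
      exact_mod_cast (InfinitePlace.mult_pos (w := w))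
    have h4 : 0 ≤ max 0 (Real.log (w (6912 * A ^ 3 / dsc A B))) := le_max_left _ _
    have h5 : Real.log (w (6912 * A ^ 3 / dsc A B)) ≤ H₀ := by
      have h6 : Real.log (w (6912 * A ^ 3 / dsc A B)) ≤
        max 0 (Real.log (w (6912 * A ^ 3 / dsc A B))) := le_max_right _ _
      nlinarith
    rcases (apply_nonneg w (6912 * A ^ 3 / dsc A B)).eq_or_lt with h6 | h6
    · rw [← h6]; exact (Real.exp_pos _).le
    · exact (Real.log_le_iff_le_exp h6).1 h5
  have hinf : ∀ w : InfinitePlace K, ∃ R : ℝ, 0 < R ∧ Real.log R = 1 / 6 * Real.log (w (dsc A B)) ∧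
      ∀ i : ℕ, 1 ≤ i → 4 * Real.log (max (w (x i)) R) - C0 ≤
        Real.log (max (w (x (2 * i))) R) + Real.log (w (4 * cu A B (x i))) := by
    intro w
    have hwn : ∀ z : K, ‖w.embedding z‖ = w z := fun z => by
      rw [InfinitePlace.norm_embedding_eq]
    have hD' : dsc (w.embedding A) (w.embedding B) ≠ 0 := by
      rw [kmt_map_dsc]; exact (map_ne_zero _).2 hD
    have hJ : ‖6912 * (w.embedding A) ^ 3‖ ≤ Real.exp H₀ * ‖dsc (w.embedding A) (w.embedding B)‖ := by
      have e1 : (6912 * (w.embedding A) ^ 3 : ℂ) = w.embedding (6912 * A ^ 3 / dsc A B) *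
          w.embedding (dsc A B) := by
        rw [← map_mul, div_mul_cancel₀ _ hD]; simp [map_ofNat]
      rw [e1, norm_mul, kmt_map_dsc, hwn, hwn]
      exact mul_le_mul_of_nonneg_right (hj w) (apply_nonneg w _)
    obtain ⟨R, hR, hlR, -, -, h1⟩ := hC (w.embedding A) (w.embedding B) hD' hJ _ _
      (kmt_map w.embedding hG)
    rw [kmt_map_dsc, hwn] at hlR
    refine ⟨R, hR, hlR, fun i hi => ?_⟩
    have h2 := (abs_le.1 (h1 i hi)).2
    simp only [kmt_map_cu, hwn] at h2
    linarith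
  choose Ri hRi hlRi hstepi using hinf
  have hwD : ∀ w : InfinitePlace K, 0 < w (dsc A B) := fun w => InfinitePlace.pos_iff.mpr hD
  -- the finite set of places
  have hS1 : {v : FinitePlace K | 1 < v (x k)}.Finite := by
    refine (KPOT_supp_max (x k)).subset fun v hv => ?_
    rw [Function.mem_support]
    have h1 : 1 < v (x k) := hv
    rw [max_eq_left h1.le]
    exact (Real.log_pos h1).ne'
  set S : Finset (FinitePlace K) := hfin.toFinset ∪ hS1.toFinset with hSdef
  have hout : ∀ v : FinitePlace K, v ∉ S → v 2 = 1 ∧ v 3 = 1 ∧ v A ≤ 1 ∧ v B ≤ 1 ∧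
      v (dsc A B) = 1 ∧ v (x k) ≤ 1 := by
    intro v hv
    rw [hSdef, Finset.mem_union, not_or, Set.Finite.mem_toFinset, Set.Finite.mem_toFinset] at hv
    obtain ⟨h1, h2⟩ := hv
    have h3 : v 2 = 1 ∧ v 3 = 1 ∧ v A ≤ 1 ∧ v B ≤ 1 ∧ v (dsc A B) = 1 := by
      by_contra h; exact h1 h
    have h4 : v (x k) ≤ 1 := by
      by_contra h; exact h2 (not_le.1 h)
    exact ⟨h3.1, h3.2.1, h3.2.2.1, h3.2.2.2.1, h3.2.2.2.2, h4⟩
  have hcne : ∀ i : ℕ, 1 ≤ i → 4 * cu A B (x i) ≠ 0 := by
    intro i hi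
    have h1 : cu A B (x i) = y i ^ 2 := by
      rw [hG.curve i hi]; unfold cu; ring
    rw [h1]
    exact mul_ne_zero (by norm_num) (pow_ne_zero 2 (hG.yne i hi))
  have key := hKPOT K x (fun i => 4 * cu A B (x i)) e he hcne S
    (fun v i => Real.log (max (v (x i)) (R v)))
    (fun v => 7 * Real.log (max (v (6912 * A ^ 3 / dsc A B)) 1) + 100 * -Real.log (v 6))
    (fun w i => Real.log (max (w (x i)) (Ri w))) C0
    (fun v _ i hi => hstep v i hi)
    (fun v hv i hi => by
      obtain ⟨h2, h3, hA, hB, hd, -⟩ := hout v hv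
      have h5 := hKGO K (V v) (by rw [hV]; exact h2) A B (by rw [hV]; exact hA)
        (by rw [hV]; exact hB) (by rw [hV]; exact hd) x y hG i hi
      simp only [hV] at h5
      exact h5)
    (fun w i hi => hstepi w i hi)
    (fun v _ => ⟨_, fun i _ => logmax_le _ _ (hR v)⟩)
    (fun w => ⟨_, fun i _ => logmax_le _ _ (hRi w)⟩) k hk
  -- the height of `z`
  have hz : Height.logHeight₁ (x k ^ 6 / dsc A B) =
      6 * (∑ v ∈ S, Real.log (max (v (x k)) (R v)) +
        ∑ w : InfinitePlace K, (w.mult : ℝ) * Real.log (max (w (x k)) (Ri w))) := by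
    have e1 : ∀ v : FinitePlace K, Real.log (max (v (x k ^ 6 / dsc A B)) 1) =
        6 * Real.log (max (v (x k)) (R v)) - Real.log (v (dsc A B)) := by
      intro v
      have h1 : v (x k ^ 6 / dsc A B) = v (x k) ^ 6 / v (dsc A B) := by
        rw [map_div₀, map_pow]
      rw [h1]
      exact logloc _ _ _ (hv0 v _) (hvD v) (hR v) (hlR v)
    have e2 : ∀ w : InfinitePlace K, Real.log (max (w (x k ^ 6 / dsc A B)) 1) =
        6 * Real.log (max (w (x k)) (Ri w)) - Real.log (w (dsc A B)) := by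
      intro w
      rw [map_div₀, map_pow]
      exact logloc _ _ _ (apply_nonneg w _) (hwD w) (hRi w) (hlRi w)
    have s1 : ∑ᶠ v : FinitePlace K, Real.log (max (v (x k ^ 6 / dsc A B)) 1) =
        ∑ v ∈ S, Real.log (max (v (x k ^ 6 / dsc A B)) 1) := by
      apply KPOT_sum_eq
      intro v hv
      by_contra h
      obtain ⟨-, -, -, -, hd, hx⟩ := hout v h
      apply hv
      have h1 : v (x k ^ 6 / dsc A B) = v (x k) ^ 6 / v (dsc A B) := by
        rw [map_div₀, map_pow]
      show Real.log (max (v (x k ^ 6 / dsc A B)) 1) = 0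
      rw [h1, hd, div_one, max_eq_right (pow_le_one₀ (hv0 v _) hx), Real.log_one]
    have s2 : ∑ᶠ v : FinitePlace K, Real.log (v (dsc A B)) =
        ∑ v ∈ S, Real.log (v (dsc A B)) := by
      apply KPOT_sum_eq
      intro v hv
      by_contra h
      obtain ⟨-, -, -, -, hd, -⟩ := hout v h
      apply hv
      show Real.log (v (dsc A B)) = 0
      rw [hd, Real.log_one]
    have hpf := KPOT_prod hD
    rw [s2] at hpf
    have e2' : ∑ w : InfinitePlace K, (w.mult : ℝ) * Real.log (max (w (x k ^ 6 / dsc A B)) 1) =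
        ∑ w : InfinitePlace K, (w.mult : ℝ) * (6 * Real.log (max (w (x k)) (Ri w)) -
          Real.log (w (dsc A B))) := Finset.sum_congr rfl fun w _ => by rw [e2 w]
    rw [KPOT_height, s1, Finset.sum_congr rfl (fun v _ => e1 v), e2', Finset.sum_sub_distrib]
    have e3 : ∑ w : InfinitePlace K, (w.mult : ℝ) * (6 * Real.log (max (w (x k)) (Ri w)) -
        Real.log (w (dsc A B))) = 6 * ∑ w : InfinitePlace K, (w.mult : ℝ) *
          Real.log (max (w (x k)) (Ri w)) - ∑ w : InfinitePlace K, (w.mult : ℝ) *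
            Real.log (w (dsc A B)) := by
      rw [Finset.mul_sum, ← Finset.sum_sub_distrib]
      exact Finset.sum_congr rfl fun w _ => by ring
    rw [e3, ← Finset.mul_sum]
    linarith
  -- the losses
  have hjH : ∑ v ∈ S, Real.log (max (v (6912 * A ^ 3 / dsc A B)) 1) ≤ max H₀ 0 := by
    have h1 : Height.logHeight₁ (6912 * A ^ 3 / dsc A B) ≤ H₀ := by
      have h2 : HK A B = LD A B + Height.logHeight₁ (6912 * A ^ 3 / dsc A B) := rfl
      linarith
    rw [KPOT_height] at h1
    set g : FinitePlace K → ℝ := fun v => Real.log (max (v (6912 * A ^ 3 / dsc A B)) 1) with hg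
    have hg0 : ∀ v, 0 ≤ g v := fun v => Real.log_nonneg (le_max_right _ _)
    have hsupp := KPOT_supp_max (6912 * A ^ 3 / dsc A B)
    have h3 : ∑ᶠ v, g v = ∑ v ∈ S ∪ hsupp.toFinset, g v := by
      apply KPOT_sum_eq
      intro v hv
      rw [Finset.coe_union, Set.Finite.coe_toFinset]
      exact Or.inr hv
    have h4 : ∑ v ∈ S, g v ≤ ∑ v ∈ S ∪ hsupp.toFinset, g v :=
      Finset.sum_le_sum_of_subset_of_nonneg Finset.subset_union_left (fun v _ _ => hg0 v)
    have h5 : 0 ≤ ∑ w : InfinitePlace K, (w.mult : ℝ) *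
        Real.log (max (w (6912 * A ^ 3 / dsc A B)) 1) :=
      Finset.sum_nonneg fun w _ => mul_nonneg (Nat.cast_nonneg _)
        (Real.log_nonneg (le_max_right _ _))
    have h6 : H₀ ≤ max H₀ 0 := le_max_left _ _
    linarith
  have hs6 := hSIX K S
  have hDsum : ∑ v ∈ S, (7 * Real.log (max (v (6912 * A ^ 3 / dsc A B)) 1) +
      100 * -Real.log (v 6)) = 7 * ∑ v ∈ S, Real.log (max (v (6912 * A ^ 3 / dsc A B)) 1) +
        100 * ∑ v ∈ S, -Real.log (v (6 : K)) := by
    rw [Finset.sum_add_distrib, Finset.mul_sum, Finset.mul_sum]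
  rw [hDsum] at key
  have hn6 : (Module.finrank ℚ K : ℝ) * Real.log 6 ≤ D * Real.log 6 :=
    mul_le_mul_of_nonneg_right hn' l6
  have hnC : (Module.finrank ℚ K : ℝ) * C0 ≤ D * C0 := mul_le_mul_of_nonneg_right hn' hC0
  rw [hz]
  linarith

end Pool.Agent.Helper30.UNI
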