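import Pool.Agent.Helper92.LV.Stmts

set_option autoImplicit false

/-!
# UNI rows PHT, KPSu, KPS2u (MP_9a3c31): explicit constants at one place
-/

open Filter Topology NumberField

namespace Pool.Agent.Helper30.UNI

open Pool.Agent.Helper42.LS Pool.Agent.Helper42.LK Pool.Agent.Helper92.LV

variable {F : Type} [Field F]

private lemma kpgt_nr_nonneg (v : DV F) (x : F) : 0 ≤ v.nr x := v.nr_nonneg x

private lemma kpgt_nr_add_le (v : DV F) {q r : F} {M : ℝ} (h1 : v.nr q ≤ M) (h2 : v.nr r ≤ M) :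
    v.nr (q + r) ≤ M := (v.nr_add_le q r).trans (max_le h1 h2)

private lemma kpgt_nr_sub_le (v : DV F) {q r : F} {M : ℝ} (h1 : v.nr q ≤ M) (h2 : v.nr r ≤ M) :
    v.nr (q - r) ≤ M := (v.nr_sub_le q r).trans (max_le h1 h2)

/-- multiplication by a natural number does not increase the norm -/
private lemma kpgt_nr_natmul (v : DV F) (n : ℕ) {q : F} {M : ℝ} (h : v.nr q ≤ M) :
    v.nr ((n : F) * q) ≤ M := by
  rw [v.nr_mul]
  have h1 := v.nr_natCast n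
  have h2 := v.nr_nonneg q
  nlinarith [v.nr_nonneg (n : F)]

/-- the basic inequality -/
private lemma kpgt_core (v : DV F) (A B x : F) (R s f : ℝ) (hR : 0 < R) (hs : 1 ≤ s)
    (hf : 1 ≤ f) (hD : v.nr (dsc A B) = R ^ 6) (hA : v.nr A ≤ s ^ 2 * R ^ 2)
    (hB : v.nr B ≤ s ^ 3 * R ^ 3) (h4 : ∀ q : F, v.nr q ≤ f * v.nr (4 * q)) :
    max (v.nr x) R ^ 4 ≤ s ^ 7 * f * max (v.nr (th A B x)) (R * v.nr (4 * cu A B x)) := by
  have hx0 := kpgt_nr_nonneg v x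
  have hA0 := kpgt_nr_nonneg v A
  have hB0 := kpgt_nr_nonneg v B
  have ht0 := kpgt_nr_nonneg v (th A B x)
  have hc0 := kpgt_nr_nonneg v (cu A B x)
  have hc4 := kpgt_nr_nonneg v (4 * cu A B x)
  have hs7 : (1 : ℝ) ≤ s ^ 7 * f := by
    have : (1 : ℝ) ≤ s ^ 7 := one_le_pow₀ hs
    nlinarith
  by_cases hx : s * R < v.nr x
  · -- big x
    have hxR : R ≤ v.nr x := by nlinarith
    rw [max_eq_left hxR]
    have hxp : 0 < v.nr x := lt_of_lt_of_le hR hxR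
    have b1 : v.nr A < v.nr x ^ 2 := by nlinarith [mul_pos (lt_of_lt_of_le one_pos hs) hR]
    have hsR : 0 < s * R := mul_pos (lt_of_lt_of_le one_pos hs) hR
    have b2 : v.nr B < v.nr x ^ 3 := by
      have : (s * R) ^ 3 < v.nr x ^ 3 := pow_lt_pow_left₀ hx hsR.le (by norm_num)
      have e : (s * R) ^ 3 = s ^ 3 * R ^ 3 := by ring
      linarith
    have hrest : v.nr (x ^ 4 - th A B x) < v.nr x ^ 4 := by
      have e : x ^ 4 - th A B x = ((2 : ℕ) : F) * (A * x ^ 2) + ((8 : ℕ) : F) * (B * x) - A ^ 2 := by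
        unfold th; push_cast; ring
      rw [e]
      have c1 : v.nr (A * x ^ 2) < v.nr x ^ 4 := by
        rw [v.nr_mul, v.nr_pow]
        nlinarith [pow_pos hxp 2]
      have c2 : v.nr (B * x) < v.nr x ^ 4 := by
        rw [v.nr_mul]
        nlinarith [pow_pos hxp 3]
      have c3 : v.nr (A ^ 2) < v.nr x ^ 4 := by
        rw [v.nr_pow]
        have : v.nr A ^ 2 < (v.nr x ^ 2) ^ 2 := pow_lt_pow_left₀ b1 hA0 (by norm_num)
        have e : (v.nr x ^ 2) ^ 2 = v.nr x ^ 4 := by ring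
        linarith
      have d1 := kpgt_nr_natmul v 2 (le_refl (v.nr (A * x ^ 2)))
      have d2 := kpgt_nr_natmul v 8 (le_refl (v.nr (B * x)))
      refine lt_of_le_of_lt (v.nr_sub_le _ _) (max_lt ?_ c3)
      exact lt_of_le_of_lt (v.nr_add_le _ _) (max_lt (d1.trans_lt c1) (d2.trans_lt c2))
    have h5 : v.nr x ^ 4 ≤ v.nr (th A B x) := by
      by_contra hcon
      push Not at hcon
      have e : x ^ 4 = (x ^ 4 - th A B x) + th A B x := by ring
      have := v.nr_add_le (x ^ 4 - th A B x) (th A B x)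
      rw [← e, v.nr_pow] at this
      have := lt_of_le_of_lt this (max_lt hrest hcon)
      exact lt_irrefl _ this
    have h6 : v.nr (th A B x) ≤ max (v.nr (th A B x)) (R * v.nr (4 * cu A B x)) := le_max_left _ _
    have h7 : 0 ≤ max (v.nr (th A B x)) (R * v.nr (4 * cu A B x)) := ht0.trans h6
    nlinarith
  · push Not at hx
    set Mx := max (v.nr (th A B x)) (R * v.nr (4 * cu A B x)) with hMx
    have hM0 : 0 ≤ Mx := ht0.trans (le_max_left _ _)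
    have hth : v.nr (th A B x) ≤ Mx := le_max_left _ _
    have hcu : R * v.nr (4 * cu A B x) ≤ Mx := le_max_right _ _
    have hsR : 0 < s * R := mul_pos (lt_of_lt_of_le one_pos hs) hR
    have key : (3 * x ^ 2 + 4 * A) * th A B x - (3 * x ^ 3 - 5 * A * x - 27 * B) * cu A B x =
        dsc A B := by
      unfold th cu dsc; ring
    have k1 : v.nr (3 * x ^ 2 + 4 * A) ≤ s ^ 2 * R ^ 2 := by
      have a1 : v.nr (((3 : ℕ) : F) * x ^ 2) ≤ s ^ 2 * R ^ 2 := by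
        apply kpgt_nr_natmul
        rw [v.nr_pow]
        have : v.nr x ^ 2 ≤ (s * R) ^ 2 := pow_le_pow_left₀ hx0 hx 2
        have e : (s * R) ^ 2 = s ^ 2 * R ^ 2 := by ring
        linarith
      have a2 : v.nr (((4 : ℕ) : F) * A) ≤ s ^ 2 * R ^ 2 := kpgt_nr_natmul v 4 hA
      exact_mod_cast kpgt_nr_add_le v a1 a2
    have k2 : v.nr (3 * x ^ 3 - 5 * A * x - 27 * B) ≤ s ^ 3 * R ^ 3 := by
      have a1 : v.nr (((3 : ℕ) : F) * x ^ 3) ≤ s ^ 3 * R ^ 3 := by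
        apply kpgt_nr_natmul
        rw [v.nr_pow]
        have : v.nr x ^ 3 ≤ (s * R) ^ 3 := pow_le_pow_left₀ hx0 hx 3
        have e : (s * R) ^ 3 = s ^ 3 * R ^ 3 := by ring
        linarith
      have a2 : v.nr (((5 : ℕ) : F) * (A * x)) ≤ s ^ 3 * R ^ 3 := by
        apply kpgt_nr_natmul
        rw [v.nr_mul]
        calc v.nr A * v.nr x ≤ (s ^ 2 * R ^ 2) * (s * R) :=
              mul_le_mul hA hx hx0 (by positivity)
          _ = s ^ 3 * R ^ 3 := by ring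
      have a3 : v.nr (((27 : ℕ) : F) * B) ≤ s ^ 3 * R ^ 3 := kpgt_nr_natmul v 27 hB
      have := kpgt_nr_sub_le v (kpgt_nr_sub_le v a1 a2) a3
      have e : 3 * x ^ 3 - 5 * A * x - 27 * B =
        ((3 : ℕ) : F) * x ^ 3 - ((5 : ℕ) : F) * (A * x) - ((27 : ℕ) : F) * B := by push_cast; ring
      rw [e]; exact this
    have k3 : R ^ 6 ≤ s ^ 3 * f * R ^ 2 * Mx := by
      rw [← hD, ← key]
      apply kpgt_nr_sub_le v
      · rw [v.nr_mul]
        have s1 : s ^ 2 ≤ s ^ 3 * f := by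
          have : s ^ 3 * f = s ^ 2 * (s * f) := by ring
          rw [this]
          have hsf : 1 ≤ s * f := by nlinarith
          nlinarith [pow_pos (lt_of_lt_of_le one_pos hs) 2]
        calc v.nr (3 * x ^ 2 + 4 * A) * v.nr (th A B x) ≤ (s ^ 2 * R ^ 2) * Mx :=
              mul_le_mul k1 hth ht0 (by positivity)
          _ = s ^ 2 * (R ^ 2 * Mx) := by ring
          _ ≤ (s ^ 3 * f) * (R ^ 2 * Mx) := by
              apply mul_le_mul_of_nonneg_right s1 (by positivity)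
          _ = s ^ 3 * f * R ^ 2 * Mx := by ring
      · rw [v.nr_mul]
        have hf0 : 0 ≤ f := by linarith
        calc v.nr (3 * x ^ 3 - 5 * A * x - 27 * B) * v.nr (cu A B x)
            ≤ (s ^ 3 * R ^ 3) * (f * v.nr (4 * cu A B x)) :=
              mul_le_mul k2 (h4 _) hc0 (by positivity)
          _ = (s ^ 3 * f * R ^ 2) * (R * v.nr (4 * cu A B x)) := by ring
          _ ≤ (s ^ 3 * f * R ^ 2) * Mx := by
              apply mul_le_mul_of_nonneg_left hcu (by positivity)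
          _ = s ^ 3 * f * R ^ 2 * Mx := by ring
    have k4 : R ^ 4 ≤ s ^ 3 * f * Mx := by
      have : R ^ 2 * R ^ 4 ≤ R ^ 2 * (s ^ 3 * f * Mx) := by nlinarith
      exact le_of_mul_le_mul_left this (by positivity)
    have k5 : max (v.nr x) R ≤ s * R := max_le hx (by nlinarith)
    have k6 : max (v.nr x) R ^ 4 ≤ (s * R) ^ 4 :=
      pow_le_pow_left₀ (hx0.trans (le_max_left _ _)) k5 4
    calc max (v.nr x) R ^ 4 ≤ (s * R) ^ 4 := k6
      _ = s ^ 4 * R ^ 4 := by ring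
      _ ≤ s ^ 4 * (s ^ 3 * f * Mx) := by
          apply mul_le_mul_of_nonneg_left k4 (by positivity)
      _ = s ^ 7 * f * Mx := by ring

/-- `X (2k) * 4 cu = th` -/
private lemma kpgt_dbl [CharZero F] {A B : F} {x y : ℕ → F} (h : GSeq (0 : F) A B x y) (k : ℕ) (hk : 1 ≤ k) :
    x (2 * k) * (4 * cu A B (x k)) = th A B (x k) ∧ cu A B (x k) ≠ 0 := by
  have h1 := h.dblx k hk
  have h2 := h.curve k hk
  have h3 := h.yne k hk
  have h4 : cu A B (x k) = y k ^ 2 := by unfold cu; rw [h2]; ring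
  refine ⟨?_, ?_⟩
  · rw [h1, h4]
    have h5 : (((3 * x k ^ 2 + 2 * 0 * x k + A) / (2 * y k)) ^ 2 - 0 - 2 * x k) * (4 * y k ^ 2) =
        (3 * x k ^ 2 + A) ^ 2 - 8 * x k * y k ^ 2 := by
      field_simp; ring
    rw [h5, h2]; unfold th; ring
  · rw [h4]; exact pow_ne_zero 2 h3

/-- the reverse inequality -/
private lemma kpgt_upper (v : DV F) (A B x : F) (R s : ℝ) (hR : 0 < R) (hs : 1 ≤ s)
    (hA : v.nr A ≤ s ^ 2 * R ^ 2) (hB : v.nr B ≤ s ^ 3 * R ^ 3) :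
    max (v.nr (th A B x)) (R * v.nr (4 * cu A B x)) ≤ s ^ 4 * max (v.nr x) R ^ 4 := by
  have hx0 := kpgt_nr_nonneg v x
  have hA0 := kpgt_nr_nonneg v A
  have hB0 := kpgt_nr_nonneg v B
  set M : ℝ := max (v.nr x) R with hM
  have hxM : v.nr x ≤ M := le_max_left _ _
  have hRM : R ≤ M := le_max_right _ _
  have hM0 : 0 < M := lt_of_lt_of_le hR hRM
  have hs0 : 0 < s := by linarith
  have p34 : s ^ 3 ≤ s ^ 4 := pow_le_pow_right₀ hs (by norm_num)
  have p24 : s ^ 2 ≤ s ^ 4 := pow_le_pow_right₀ hs (by norm_num)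
  have p13 : s ^ 2 ≤ s ^ 3 := pow_le_pow_right₀ hs (by norm_num)
  have p3 : 1 ≤ s ^ 3 := one_le_pow₀ hs
  have p4 : 1 ≤ s ^ 4 := one_le_pow₀ hs
  have hA' : v.nr A ≤ s ^ 2 * M ^ 2 :=
    hA.trans (mul_le_mul_of_nonneg_left (pow_le_pow_left₀ hR.le hRM 2) (by positivity))
  have hB' : v.nr B ≤ s ^ 3 * M ^ 3 :=
    hB.trans (mul_le_mul_of_nonneg_left (pow_le_pow_left₀ hR.le hRM 3) (by positivity))
  have hM4 : 0 ≤ M ^ 4 := by positivity
  have hM3 : 0 ≤ M ^ 3 := by positivity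
  apply max_le
  · have e : th A B x = x ^ 4 - ((2 : ℕ) : F) * (A * x ^ 2) - ((8 : ℕ) : F) * (B * x) + A ^ 2 := by
      unfold th; push_cast; ring
    rw [e]
    have c0 : v.nr (x ^ 4) ≤ s ^ 4 * M ^ 4 := by
      rw [v.nr_pow]
      calc v.nr x ^ 4 ≤ M ^ 4 := pow_le_pow_left₀ hx0 hxM 4
        _ ≤ s ^ 4 * M ^ 4 := le_mul_of_one_le_left hM4 p4
    have c1 : v.nr (((2 : ℕ) : F) * (A * x ^ 2)) ≤ s ^ 4 * M ^ 4 := by
      apply kpgt_nr_natmul
      rw [v.nr_mul, v.nr_pow]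
      calc v.nr A * v.nr x ^ 2 ≤ (s ^ 2 * M ^ 2) * M ^ 2 :=
            mul_le_mul hA' (pow_le_pow_left₀ hx0 hxM 2) (by positivity) (by positivity)
        _ = s ^ 2 * M ^ 4 := by ring
        _ ≤ s ^ 4 * M ^ 4 := mul_le_mul_of_nonneg_right p24 hM4
    have c2 : v.nr (((8 : ℕ) : F) * (B * x)) ≤ s ^ 4 * M ^ 4 := by
      apply kpgt_nr_natmul
      rw [v.nr_mul]
      calc v.nr B * v.nr x ≤ (s ^ 3 * M ^ 3) * M := mul_le_mul hB' hxM hx0 (by positivity)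
        _ = s ^ 3 * M ^ 4 := by ring
        _ ≤ s ^ 4 * M ^ 4 := mul_le_mul_of_nonneg_right p34 hM4
    have c3 : v.nr (A ^ 2) ≤ s ^ 4 * M ^ 4 := by
      rw [v.nr_pow]
      calc v.nr A ^ 2 ≤ (s ^ 2 * M ^ 2) ^ 2 := pow_le_pow_left₀ hA0 hA' 2
        _ = s ^ 4 * M ^ 4 := by ring
    exact kpgt_nr_add_le v (kpgt_nr_sub_le v (kpgt_nr_sub_le v c0 c1) c2) c3
  · have c : v.nr (4 * cu A B x) ≤ s ^ 3 * M ^ 3 := by
      have e : 4 * cu A B x = ((4 : ℕ) : F) * (x ^ 3 + A * x + B) := by unfold cu; push_cast; ring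
      rw [e]
      apply kpgt_nr_natmul
      have d0 : v.nr (x ^ 3) ≤ s ^ 3 * M ^ 3 := by
        rw [v.nr_pow]
        calc v.nr x ^ 3 ≤ M ^ 3 := pow_le_pow_left₀ hx0 hxM 3
          _ ≤ s ^ 3 * M ^ 3 := le_mul_of_one_le_left hM3 p3
      have d1 : v.nr (A * x) ≤ s ^ 3 * M ^ 3 := by
        rw [v.nr_mul]
        calc v.nr A * v.nr x ≤ (s ^ 2 * M ^ 2) * M := mul_le_mul hA' hxM hx0 (by positivity)
          _ = s ^ 2 * M ^ 3 := by ring
          _ ≤ s ^ 3 * M ^ 3 := mul_le_mul_of_nonneg_right p13 hM3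
      exact kpgt_nr_add_le v (kpgt_nr_add_le v d0 d1) hB'
    calc R * v.nr (4 * cu A B x) ≤ M * (s ^ 3 * M ^ 3) :=
          mul_le_mul hRM c (kpgt_nr_nonneg v _) hM0.le
      _ = s ^ 3 * M ^ 4 := by ring
      _ ≤ s ^ 4 * M ^ 4 := mul_le_mul_of_nonneg_right p34 hM4

/-- general form, `R` and both inequalities -/
private lemma kpgt_main [CharZero F] (v : DV F) (A B : F) (hD0 : dsc A B ≠ 0) (s f : ℝ) (hs : 1 ≤ s)
    (hf : 1 ≤ f) (hA : v.nr A ^ 3 ≤ s ^ 6 * v.nr (dsc A B))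
    (hB : v.nr B ^ 2 ≤ s ^ 6 * v.nr (dsc A B)) (h4 : ∀ q : F, v.nr q ≤ f * v.nr (4 * q))
    (x y : ℕ → F) (hG : GSeq (0 : F) A B x y) :
    ∃ R : ℝ, 0 < R ∧ Real.log R = 1 / 6 * Real.log (v.nr (dsc A B)) ∧ ∀ k : ℕ, 1 ≤ k →
      4 * Real.log (max (v.nr (x k)) R) - Real.log (s ^ 7 * f) ≤ Real.log (max (v.nr (x (2 * k))) R) +
        Real.log (v.nr (4 * cu A B (x k))) ∧
      Real.log (max (v.nr (x (2 * k))) R) + Real.log (v.nr (4 * cu A B (x k))) ≤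
        4 * Real.log (max (v.nr (x k)) R) + 4 * Real.log s := by
  have hDp : 0 < v.nr (dsc A B) := v.nr_pos hD0
  set R : ℝ := (v.nr (dsc A B)) ^ (1 / 6 : ℝ) with hR
  have hRp : 0 < R := Real.rpow_pos_of_pos hDp _
  have hR6 : v.nr (dsc A B) = R ^ 6 := by
    rw [hR, ← Real.rpow_natCast, ← Real.rpow_mul hDp.le]
    norm_num
  have hs0 : 0 < s := by linarith
  have hA2 : v.nr A ≤ s ^ 2 * R ^ 2 := by
    have : v.nr A ^ 3 ≤ (s ^ 2 * R ^ 2) ^ 3 := by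
      rw [hR6] at hA
      calc v.nr A ^ 3 ≤ s ^ 6 * R ^ 6 := hA
        _ = (s ^ 2 * R ^ 2) ^ 3 := by ring
    exact le_of_pow_le_pow_left₀ (by norm_num) (by positivity) this
  have hB2 : v.nr B ≤ s ^ 3 * R ^ 3 := by
    have : v.nr B ^ 2 ≤ (s ^ 3 * R ^ 3) ^ 2 := by
      rw [hR6] at hB
      calc v.nr B ^ 2 ≤ s ^ 6 * R ^ 6 := hB
        _ = (s ^ 3 * R ^ 3) ^ 2 := by ring
    exact le_of_pow_le_pow_left₀ (by norm_num) (by positivity) this
  refine ⟨R, hRp, ?_, ?_⟩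
  · rw [hR, Real.log_rpow hDp]
  · intro k hk
    obtain ⟨d1, d2⟩ := kpgt_dbl hG k hk
    have hcore := kpgt_core v A B (x k) R s f hRp hs hf hR6 hA2 hB2 h4
    have hup := kpgt_upper v A B (x k) R s hRp hs hA2 hB2
    have h4c : 0 < v.nr (4 * cu A B (x k)) := v.nr_pos (mul_ne_zero (by norm_num) d2)
    have hmx : max (v.nr (th A B (x k))) (R * v.nr (4 * cu A B (x k))) =
        max (v.nr (x (2 * k))) R * v.nr (4 * cu A B (x k)) := by
      rw [← d1, v.nr_mul, max_mul_of_nonneg _ _ h4c.le]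
    rw [hmx] at hcore hup
    have p1 : 0 < max (v.nr (x k)) R := lt_max_of_lt_right hRp
    have p2 : 0 < max (v.nr (x (2 * k))) R := lt_max_of_lt_right hRp
    have hsf : 0 < s ^ 7 * f := by positivity
    have hl := Real.log_le_log (pow_pos p1 4) hcore
    rw [Real.log_pow, Real.log_mul hsf.ne' (mul_pos p2 h4c).ne', Real.log_mul p2.ne' h4c.ne'] at hl
    have hu := Real.log_le_log (mul_pos p2 h4c) hup
    rw [Real.log_mul p2.ne' h4c.ne', Real.log_mul (by positivity) (by positivity), Real.log_pow, Real.log_pow] at hu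
    push_cast at hl hu
    constructor <;> linarith

/-- bounds for the coefficients, any reduction -/
private lemma kpgt_AB [CharZero F] (v : DV F) (A B : F) (s J : ℝ)
    (hJ : 1 ≤ J) (hs : s = J * (v.nr (2 : F) ^ 8 * v.nr (3 : F) ^ 3)⁻¹)
    (hle : v.nr (6912 * A ^ 3) ≤ J * v.nr (dsc A B)) :
    1 ≤ s ∧ v.nr A ^ 3 ≤ s ^ 6 * v.nr (dsc A B) ∧ v.nr B ^ 2 ≤ s ^ 6 * v.nr (dsc A B) := by
  have p2 : 0 < v.nr (2 : F) := v.nr_pos (by norm_num)
  have p3 : 0 < v.nr (3 : F) := v.nr_pos (by norm_num)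
  have l2 : v.nr (2 : F) ≤ 1 := v.nr_ofNat 2
  have l3 : v.nr (3 : F) ≤ 1 := v.nr_ofNat 3
  set a : ℝ := v.nr (2 : F) with ha
  set b : ℝ := v.nr (3 : F) with hb
  have hw : 0 < a ^ 8 * b ^ 3 := by positivity
  have a2 : a ^ 2 ≤ 1 := pow_le_one₀ p2.le l2
  have a8 : a ^ 8 ≤ 1 := pow_le_one₀ p2.le l2
  have b3 : b ^ 3 ≤ 1 := pow_le_one₀ p3.le l3
  have hw1 : a ^ 8 * b ^ 3 ≤ 1 := mul_le_one₀ a8 (by positivity) b3
  have hJ0 : 0 < J := by linarith
  have hsw : s * (a ^ 8 * b ^ 3) = J := by rw [hs]; field_simp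
  have hs1 : 1 ≤ s := by
    have h1 : (1 : ℝ) ≤ (a ^ 8 * b ^ 3)⁻¹ := (one_le_inv₀ hw).2 hw1
    rw [hs]; nlinarith
  have hs0 : 0 < s := by linarith
  have hDn := v.nr_nonneg (dsc A B)
  have hA1 : v.nr A ^ 3 ≤ s * v.nr (dsc A B) := by
    have e : (6912 : F) * A ^ 3 = 2 ^ 8 * 3 ^ 3 * A ^ 3 := by ring
    rw [e, v.nr_mul, v.nr_mul, v.nr_pow, v.nr_pow, v.nr_pow, ← ha, ← hb, ← hsw] at hle
    have h1 : (a ^ 8 * b ^ 3) * v.nr A ^ 3 ≤ (a ^ 8 * b ^ 3) * (s * v.nr (dsc A B)) := by linarith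
    exact le_of_mul_le_mul_left h1 hw
  have hs6 : s ≤ s ^ 6 := le_self_pow₀ hs1 (by norm_num)
  have hs26 : s ^ 2 ≤ s ^ 6 := pow_le_pow_right₀ hs1 (by norm_num)
  have hA : v.nr A ^ 3 ≤ s ^ 6 * v.nr (dsc A B) :=
    hA1.trans (mul_le_mul_of_nonneg_right hs6 hDn)
  have hA0 : 0 ≤ v.nr A ^ 3 := pow_nonneg (v.nr_nonneg A) 3
  have hB : v.nr B ^ 2 ≤ s ^ 6 * v.nr (dsc A B) := by
    have e : (3 : F) ^ 3 * B ^ 2 = dsc A B - 2 ^ 2 * A ^ 3 := by unfold dsc; ring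
    have h1 : v.nr ((3 : F) ^ 3 * B ^ 2) ≤ s * v.nr (dsc A B) := by
      rw [e]
      apply kpgt_nr_sub_le v (by nlinarith)
      rw [v.nr_mul, v.nr_pow, v.nr_pow, ← ha]
      nlinarith
    rw [v.nr_mul, v.nr_pow, v.nr_pow, ← hb] at h1
    have hB0 : 0 ≤ v.nr B ^ 2 := pow_nonneg (v.nr_nonneg B) 2
    have h5 : a ^ 8 * (b ^ 3 * v.nr B ^ 2) ≤ b ^ 3 * v.nr B ^ 2 := by
      have : 0 ≤ b ^ 3 * v.nr B ^ 2 := by positivity
      nlinarith
    have h6 : (a ^ 8 * b ^ 3) * v.nr B ^ 2 ≤ s * v.nr (dsc A B) := by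
      calc (a ^ 8 * b ^ 3) * v.nr B ^ 2 = a ^ 8 * (b ^ 3 * v.nr B ^ 2) := by ring
        _ ≤ _ := h5.trans h1
    calc v.nr B ^ 2 ≤ J * v.nr B ^ 2 := le_mul_of_one_le_left hB0 hJ
      _ = s * ((a ^ 8 * b ^ 3) * v.nr B ^ 2) := by rw [← hsw]; ring
      _ ≤ s * (s * v.nr (dsc A B)) := mul_le_mul_of_nonneg_left h6 hs0.le
      _ = s ^ 2 * v.nr (dsc A B) := by ring
      _ ≤ s ^ 6 * v.nr (dsc A B) := mul_le_mul_of_nonneg_right hs26 hDn
  exact ⟨hs1, hA, hB⟩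

/-- all rows at once: `J` bounds `j` -/
private lemma kpgt_all [CharZero F] (v : DV F) (A B : F) (hD0 : dsc A B ≠ 0) (J : ℝ)
    (hJ : 1 ≤ J) (hle : v.nr (6912 * A ^ 3) ≤ J * v.nr (dsc A B))
    (x y : ℕ → F) (hG : GSeq (0 : F) A B x y) :
    0 ≤ -Real.log (v.nr (2 : F)) ∧ 0 ≤ -Real.log (v.nr (3 : F)) ∧
    -Real.log (v.nr (6 : F)) = -Real.log (v.nr (2 : F)) + -Real.log (v.nr (3 : F)) ∧
    ∃ R : ℝ, 0 < R ∧ Real.log R = 1 / 6 * Real.log (v.nr (dsc A B)) ∧ ∀ k : ℕ, 1 ≤ k →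
      4 * Real.log (max (v.nr (x k)) R) - (7 * Real.log J + 58 * -Real.log (v.nr (2 : F)) +
        21 * -Real.log (v.nr (3 : F))) ≤ Real.log (max (v.nr (x (2 * k))) R) +
        Real.log (v.nr (4 * cu A B (x k))) ∧
      Real.log (max (v.nr (x (2 * k))) R) + Real.log (v.nr (4 * cu A B (x k))) ≤
        4 * Real.log (max (v.nr (x k)) R) + (4 * Real.log J + 32 * -Real.log (v.nr (2 : F)) +
        12 * -Real.log (v.nr (3 : F))) := by
  have p2 : 0 < v.nr (2 : F) := v.nr_pos (by norm_num)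
  have p3 : 0 < v.nr (3 : F) := v.nr_pos (by norm_num)
  have l2 : v.nr (2 : F) ≤ 1 := v.nr_ofNat 2
  have l3 : v.nr (3 : F) ≤ 1 := v.nr_ofNat 3
  have e6 : v.nr (6 : F) = v.nr (2 : F) * v.nr (3 : F) := by
    rw [← v.nr_mul]; norm_num
  have n2 : Real.log (v.nr (2 : F)) ≤ 0 := Real.log_nonpos p2.le l2
  have n3 : Real.log (v.nr (3 : F)) ≤ 0 := Real.log_nonpos p3.le l3
  have hJ0 : 0 < J := by linarith
  obtain ⟨hs1, hA, hB⟩ := kpgt_AB v A B _ J hJ rfl hle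
  set a : ℝ := v.nr (2 : F) with ha
  set b : ℝ := v.nr (3 : F) with hb
  have hw : 0 < a ^ 8 * b ^ 3 := by positivity
  set s : ℝ := J * (a ^ 8 * b ^ 3)⁻¹ with hs
  have hs0 : 0 < s := by linarith
  have a2 : a ^ 2 ≤ 1 := pow_le_one₀ p2.le l2
  set f : ℝ := (a ^ 2)⁻¹ with hf
  have hf1 : 1 ≤ f := (one_le_inv₀ (by positivity)).2 a2
  have hf0 : 0 < f := by linarith
  have hfa : f * a ^ 2 = 1 := inv_mul_cancel₀ (by positivity)
  have els : Real.log s = Real.log J - (8 * Real.log a + 3 * Real.log b) := by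
    rw [hs, Real.log_mul hJ0.ne' (by positivity), Real.log_inv,
      Real.log_mul (by positivity) (by positivity), Real.log_pow, Real.log_pow]
    push_cast; ring
  have elf : Real.log f = - (2 * Real.log a) := by
    rw [hf, Real.log_inv, Real.log_pow]; push_cast; ring
  have elsf : Real.log (s ^ 7 * f) = 7 * Real.log s + Real.log f := by
    rw [Real.log_mul (by positivity) hf0.ne', Real.log_pow]; push_cast; ring
  refine ⟨by linarith, by linarith, ?_, ?_⟩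
  · rw [e6, Real.log_mul p2.ne' p3.ne']; ring
  obtain ⟨R, hR, hlR, h1⟩ := kpgt_main v A B hD0 s f hs1 hf1 hA hB (by
      intro q
      have e : (4 : F) * q = 2 ^ 2 * q := by ring
      rw [e, v.nr_mul, v.nr_pow, ← ha, ← mul_assoc, hfa, one_mul]) x y hG
  refine ⟨R, hR, hlR, fun k hk => ?_⟩
  obtain ⟨h2, h3⟩ := h1 k hk
  rw [elsf, els, elf] at h2
  rw [els] at h3
  constructor <;> linarith

/-- row PHT -/
theorem pht (F : Type) [Field F] [CharZero F] (v : DV F) (A B : F) (hD : dsc A B ≠ 0)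
    (x y : ℕ → F) (hG : GSeq (0 : F) A B x y) :
    ∃ R : ℝ, 0 < R ∧ Real.log R = 1 / 6 * Real.log (v.nr (dsc A B)) ∧ ∀ k : ℕ, 1 ≤ k →
    4 * Real.log (max (v.nr (x k)) R) -
      (7 * Real.log (max (v.nr (6912 * A ^ 3 / dsc A B)) 1) + 100 * -Real.log (v.nr 6)) ≤
      Real.log (max (v.nr (x (2 * k))) R) + Real.log (v.nr (4 * cu A B (x k))) := by
  have hle : v.nr (6912 * A ^ 3) ≤ max (v.nr (6912 * A ^ 3 / dsc A B)) 1 * v.nr (dsc A B) := by
    have h1 : v.nr (6912 * A ^ 3) = v.nr (6912 * A ^ 3 / dsc A B) * v.nr (dsc A B) := by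
      rw [← v.nr_mul]; congr 1; field_simp
    rw [h1]
    exact mul_le_mul_of_nonneg_right (le_max_left _ _) (v.nr_nonneg _)
  obtain ⟨q2, q3, q6, R, hR, hlR, h1⟩ := kpgt_all v A B hD _ (le_max_right _ _) hle x y hG
  refine ⟨R, hR, hlR, fun k hk => ?_⟩
  have h2 := (h1 k hk).1
  rw [q6]
  linarith

/-- row KPS2u -/
theorem kps2u (F : Type) [Field F] [CharZero F] (v : DV F) (A B : F) (hD : dsc A B ≠ 0)
    (hle : v.nr (6912 * A ^ 3) ≤ v.nr (dsc A B)) (x y : ℕ → F) (hG : GSeq (0 : F) A B x y) :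
    ∃ R : ℝ, 0 < R ∧ Real.log R = 1 / 6 * Real.log (v.nr (dsc A B)) ∧ ∀ k : ℕ, 1 ≤ k →
    |4 * Real.log (max (v.nr (x k)) R) - Real.log (max (v.nr (x (2 * k))) R) -
      Real.log (v.nr (4 * cu A B (x k)))| ≤ 100 * -Real.log (v.nr 6) := by
  obtain ⟨q2, q3, q6, R, hR, hlR, h1⟩ := kpgt_all v A B hD 1 le_rfl (by rwa [one_mul]) x y hG
  refine ⟨R, hR, hlR, fun k hk => ?_⟩
  obtain ⟨h2, h3⟩ := h1 k hk
  rw [Real.log_one] at h2 h3
  rw [q6, abs_le]
  constructor <;> linarith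

/-- row KPSu -/
theorem kpsu (F : Type) [Field F] [CharZero F] (v : DV F) (A B : F) (hD : dsc A B ≠ 0)
    (hle : v.nr (6912 * A ^ 3) ≤ v.nr (dsc A B)) (x y : ℕ → F) (hG : GSeq (0 : F) A B x y) :
    ∃ U : ℕ → ℝ, (∀ k : ℕ, 1 ≤ k → 4 * U k - 100 * -Real.log (v.nr 6) ≤ U (2 * k) +
      Real.log (v.nr (4 * cu A B (x k)))) ∧
    (∃ C : ℝ, ∀ k : ℕ, 1 ≤ k → U k ≤ Real.log (max (v.nr (x k)) 1) + C) ∧
    (∀ k : ℕ, 1 ≤ k → 1 / 6 * Real.log (v.nr (dsc A B)) ≤ U k) := by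
  obtain ⟨R, hR, hlR, h1⟩ := kps2u F v A B hD hle x y hG
  refine ⟨fun k => Real.log (max (v.nr (x k)) R), fun k hk => ?_, ⟨Real.log (max R 1), fun k _ => ?_⟩,
    fun k _ => ?_⟩
  · have h2 := (abs_le.1 (h1 k hk)).2
    dsimp only
    linarith
  · have p1 : 0 < max (v.nr (x k)) 1 := lt_max_of_lt_right one_pos
    have p2 : 0 < max R 1 := lt_max_of_lt_right one_pos
    dsimp only
    rw [← Real.log_mul p1.ne' p2.ne']
    apply Real.log_le_log (lt_max_of_lt_right hR)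
    apply max_le
    · calc v.nr (x k) ≤ max (v.nr (x k)) 1 := le_max_left _ _
        _ ≤ _ := le_mul_of_one_le_right p1.le (le_max_right _ _)
    · calc R ≤ max R 1 := le_max_left _ _
        _ ≤ _ := le_mul_of_one_le_left p2.le (le_max_right _ _)
  · rw [← hlR]
    exact Real.log_le_log hR (le_max_right _ _)

end Pool.Agent.Helper30.UNI
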