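import Pool.Agent.Helper9.UNI.Sheet
import Pool.Agent.Helper30.UNI.HBD

set_option autoImplicit false

/-!
# UNI rows PHT, KPSu, KPS2u, HBD (MP_9a3c31)
-/

namespace Pool.Agent.Helper30.UNI

open Pool.Agent.Helper42.LS Pool.Agent.Helper42.LK Pool.Agent.Helper92.LV Pool.Agent.Helper9.UNI

theorem PHT : ST_PHT := pht

theorem KPSu : ST_KPSu := kpsu

theorem KPS2u : ST_KPS2u := kps2u

theorem HBD (hC02 : ST_C02) (hKPOT : ST_KPOT) (hKGO : ST_KGO) (hKDF : ST_KDF) (hKFP : ST_KFP)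
    (hSIX : ST_SIX) : ST_HBD :=
  hbd hC02 hKPOT hKGO hKDF hKFP (fun K _ _ T => (hSIX K).2.2.2.1 T)

end Pool.Agent.Helper30.UNI
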